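import Pool.Agent.X263.Bd.Grp

/-!
Invertible matrices over `ℤΓ` with integer entries off one row and one column, for groups with
unique products.
-/

set_option autoImplicit false

namespace Pool.Agent.X263.Bd

open Matrix TH57.Thr

variable {Γ : Type} [Group Γ] [UniqueProds Γ]

/-- `2 × 2` matrices with an integer entry in the left lower corner -/
theorem TT_two' (x : (Matrix (Fin 2) (Fin 2) (MonoidAlgebra ℤ Γ))ˣ) (m : ℤ)
    (hm : (x : Matrix (Fin 2) (Fin 2) (MonoidAlgebra ℤ Γ)) 1 0 = (m : MonoidAlgebra ℤ Γ)) :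
    TT (TU Γ) x := by
  let W : (Matrix (Fin 2) (Fin 2) ℤ)ˣ :=
    { val := !![0, 1; 1, 0]
      inv := !![0, 1; 1, 0]
      val_inv := by decide
      inv_val := by decide }
  have hW : (Units.map (mpm (Int.castRingHom (MonoidAlgebra ℤ Γ))) W :
      Matrix (Fin 2) (Fin 2) (MonoidAlgebra ℤ Γ)) = !![0, 1; 1, 0] := by
    ext1 i j
    fin_cases i <;> fin_cases j <;> simp [mpm, W]
  have h1 : TT (TU Γ) (Units.map (mpm (Int.castRingHom (MonoidAlgebra ℤ Γ))) W * x) := by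
    apply TT_two _ m
    rw [Units.val_mul, hW, Matrix.mul_apply, Fin.sum_univ_two]
    simp [hm]
  have h2 : x = (Units.map (mpm (Int.castRingHom (MonoidAlgebra ℤ Γ))) W)⁻¹ *
      (Units.map (mpm (Int.castRingHom (MonoidAlgebra ℤ Γ))) W * x) := by group
  rw [h2]
  exact TT_mul _ _ _ (TT_inv _ _ (TT_im W)) h1

/-- integer entries off one row and one column -/
theorem TT_int_border {κ : Type} [Fintype κ] [DecidableEq κ]
    (A : (Matrix κ κ (MonoidAlgebra ℤ Γ))ˣ) (i₀ j₀ : κ)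
    (hA : ∀ i j, i ≠ i₀ → j ≠ j₀ →
      ∃ z : ℤ, (A : Matrix κ κ (MonoidAlgebra ℤ Γ)) i j = (z : MonoidAlgebra ℤ Γ)) :
    TT (TU Γ) A := by
  classical
  let au : MonoidAlgebra ℤ Γ →+* ℤ := (MonoidAlgebra.lift ℤ ℤ Γ 1).toRingHom
  let B : (Matrix κ κ ℤ)ˣ := Units.map (mpm (κ := κ) au) A
  let C : (Matrix κ κ (MonoidAlgebra ℤ Γ))ˣ :=
    Units.map (mpm (Int.castRingHom (MonoidAlgebra ℤ Γ))) B
  obtain ⟨D, hD⟩ : ∃ D : Matrix κ κ (MonoidAlgebra ℤ Γ),
      D = (A : Matrix κ κ (MonoidAlgebra ℤ Γ)) - (C : Matrix κ κ (MonoidAlgebra ℤ Γ)) := ⟨_, rfl⟩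
  have hD0 : ∀ i j, i ≠ i₀ → j ≠ j₀ → D i j = 0 := by
    intro i j hi hj
    obtain ⟨z, hz⟩ := hA i j hi hj
    have h1 : (C : Matrix κ κ (MonoidAlgebra ℤ Γ)) i j
        = ((au ((A : Matrix κ κ (MonoidAlgebra ℤ Γ)) i j) : ℤ) : MonoidAlgebra ℤ Γ) := rfl
    rw [hD, Matrix.sub_apply, h1, hz, map_intCast, Int.cast_id, sub_self]
  let P : Matrix κ (Fin 2) (MonoidAlgebra ℤ Γ) :=
    Matrix.of fun i k => if k = 0 then (if i = i₀ then 1 else 0) else (if i = i₀ then 0 else D i j₀)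
  let Q' : Matrix (Fin 2) κ (MonoidAlgebra ℤ Γ) :=
    Matrix.of fun k j => if k = 0 then D i₀ j else (if j = j₀ then 1 else 0)
  have hPQ : P * Q' = D := by
    ext1 i j
    rw [Matrix.mul_apply, Fin.sum_univ_two]
    by_cases hi : i = i₀
    · subst hi
      simp [P, Q']
    · by_cases hj : j = j₀
      · subst hj
        simp [P, Q', hi]
      · simp [P, Q', hi, hj, hD0 i j hi hj]
  let Q : Matrix (Fin 2) κ (MonoidAlgebra ℤ Γ) := Q' * (C⁻¹ : (Matrix κ κ (MonoidAlgebra ℤ Γ))ˣ).val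
  have hAC : ((A * C⁻¹ : (Matrix κ κ (MonoidAlgebra ℤ Γ))ˣ) : Matrix κ κ (MonoidAlgebra ℤ Γ))
      = 1 + P * Q := by
    change (A : Matrix κ κ (MonoidAlgebra ℤ Γ)) * (C⁻¹ : (Matrix κ κ (MonoidAlgebra ℤ Γ))ˣ).val = _
    have h1 : (A : Matrix κ κ (MonoidAlgebra ℤ Γ)) = (C : Matrix κ κ (MonoidAlgebra ℤ Γ)) + P * Q' := by
      rw [hPQ, hD]; abel
    rw [h1, Matrix.add_mul, Units.mul_inv, Matrix.mul_assoc]
  obtain ⟨Y, hY, hYA⟩ := TT_uv (TU Γ) P Q _ hAC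
  have h2 : (Y : Matrix (Fin 2) (Fin 2) (MonoidAlgebra ℤ Γ)) 1 0
      = (((B⁻¹ : (Matrix κ κ ℤ)ˣ) : Matrix κ κ ℤ) j₀ i₀ : MonoidAlgebra ℤ Γ) := by
    rw [hY, Matrix.add_apply, Matrix.one_apply_ne (by decide), zero_add, Matrix.mul_apply,
      Finset.sum_eq_single i₀]
    · have h3 : Q 1 i₀ = (C⁻¹ : (Matrix κ κ (MonoidAlgebra ℤ Γ))ˣ).val j₀ i₀ := by
        change (Q' * (C⁻¹ : (Matrix κ κ (MonoidAlgebra ℤ Γ))ˣ).val) 1 i₀ = _
        rw [Matrix.mul_apply, Finset.sum_eq_single j₀]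
        · simp [Q']
        · intro j _ hj
          simp [Q', hj]
        · intro h
          exact absurd (Finset.mem_univ _) h
      rw [h3]
      have h4 : P i₀ 0 = 1 := by simp [P]
      rw [h4, mul_one]
      rfl
    · intro i _ hi
      have h4 : P i 0 = 0 := by simp [P, hi]
      rw [h4, mul_zero]
    · intro h
      exact absurd (Finset.mem_univ _) h
  have h3 := hYA (TT_two' Y _ h2)
  have h4 : A = A * C⁻¹ * C := by group
  rw [h4]
  exact TT_mul _ _ _ h3 (TT_im B)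

/-- the group element as a unit -/
noncomputable def gun (g : Γ) : (MonoidAlgebra ℤ Γ)ˣ where
  val := MonoidAlgebra.single g 1
  inv := MonoidAlgebra.single g⁻¹ 1
  val_inv := by
    rw [MonoidAlgebra.single_mul_single, mul_inv_cancel, mul_one, MonoidAlgebra.one_def]
  inv_val := by
    rw [MonoidAlgebra.single_mul_single, inv_mul_cancel, mul_one, MonoidAlgebra.one_def]

/-- the main theorem -/
theorem TT_border {κ : Type} [Fintype κ] [DecidableEq κ]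
    (A : (Matrix κ κ (MonoidAlgebra ℤ Γ))ˣ) (i₀ j₀ : κ) (g h : κ → Γ)
    (hA : ∀ i j, i ≠ i₀ → j ≠ j₀ →
      ∃ z : ℤ, (A : Matrix κ κ (MonoidAlgebra ℤ Γ)) i j = MonoidAlgebra.single (g i * h j) z) :
    TT (TU Γ) A := by
  have h1 : TT (TU Γ) (du (fun i => gun (g i)⁻¹) * A * du (fun j => gun (h j)⁻¹)) := by
    apply TT_int_border _ i₀ j₀
    intro i j hi hj
    obtain ⟨z, hz⟩ := hA i j hi hj
    refine ⟨z, ?_⟩
    rw [Units.val_mul, Units.val_mul]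
    change (Matrix.diagonal (fun i => (MonoidAlgebra.single (g i)⁻¹ (1 : ℤ) : MonoidAlgebra ℤ Γ)) *
      (A : Matrix κ κ (MonoidAlgebra ℤ Γ)) *
      Matrix.diagonal (fun j => (MonoidAlgebra.single (h j)⁻¹ (1 : ℤ) : MonoidAlgebra ℤ Γ))) i j = _
    rw [Matrix.mul_diagonal, Matrix.diagonal_mul, hz, MonoidAlgebra.single_mul_single,
      MonoidAlgebra.single_mul_single, int_single]
    congr 1
    · group
    · ring
  have h2 : A = (du (fun i => gun (g i)⁻¹))⁻¹ * (du (fun i => gun (g i)⁻¹) * A *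
      du (fun j => gun (h j)⁻¹)) * (du (fun j => gun (h j)⁻¹))⁻¹ := by group
  rw [h2]
  exact TT_mul _ _ _ (TT_mul _ _ _ (TT_inv _ _ (TT_du _ all_TU _)) h1)
    (TT_inv _ _ (TT_du _ all_TU _))

end Pool.Agent.X263.Bd
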