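import Pool.Agent.X263.Bd.Two

/-!
Invertible matrices over `ℤΓ` with integer entries off one row and one column, for groups with
unique products.
-/

set_option autoImplicit false

namespace Pool.Agent.X263.Bd

open Matrix TH57.Thr

section uv

variable {R : Type} [Ring R] {κ μ : Type} [Fintype κ] [DecidableEq κ] [Fintype μ] [DecidableEq μ]
  (U : Subgroup Rˣ)

/-- `1 + P Q` is trivial if `1 + Q P` is trivial -/
theorem TT_uv (P : Matrix κ μ R) (Q : Matrix μ κ R) (A : (Matrix κ κ R)ˣ)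
    (hA : (A : Matrix κ κ R) = 1 + P * Q) :
    ∃ B : (Matrix μ μ R)ˣ, (B : Matrix μ μ R) = 1 + Q * P ∧ (TT U B → TT U A) := by
  obtain ⟨A', hA'⟩ : ∃ A' : Matrix κ κ R, A' = ((A⁻¹ : (Matrix κ κ R)ˣ) : Matrix κ κ R) := ⟨_, rfl⟩
  have h1 : (1 + P * Q) * A' = 1 := by rw [← hA, hA']; exact A.mul_inv
  have h2 : A' * (1 + P * Q) = 1 := by rw [← hA, hA']; exact A.inv_mul
  have h1' : P * Q * A' = 1 - A' := by rw [add_mul, one_mul] at h1; rw [← h1]; abel
  have h2' : A' * (P * Q) = 1 - A' := by rw [mul_add, mul_one] at h2; rw [← h2]; abel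
  let B : (Matrix μ μ R)ˣ :=
    { val := 1 + Q * P
      inv := 1 - Q * A' * P
      val_inv := by
        have : Q * P * (Q * A' * P) = Q * P - Q * A' * P := by
          calc Q * P * (Q * A' * P) = Q * (P * Q * A') * P := by
                simp only [Matrix.mul_assoc]
            _ = _ := by rw [h1', Matrix.mul_sub, Matrix.mul_one, Matrix.sub_mul]
        rw [add_mul, one_mul, mul_sub, mul_one, this]
        abel
      inv_val := by
        have : Q * A' * P * (Q * P) = Q * P - Q * A' * P := by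
          calc Q * A' * P * (Q * P) = Q * (A' * (P * Q)) * P := by
                simp only [Matrix.mul_assoc]
            _ = _ := by rw [h2', Matrix.mul_sub, Matrix.mul_one, Matrix.sub_mul]
        rw [sub_mul, one_mul, mul_add, mul_one, this]
        abel }
  refine ⟨B, rfl, fun hB => ?_⟩
  obtain ⟨L, hL1, hL2⟩ : ∃ L : (Matrix (κ ⊕ μ) (κ ⊕ μ) R)ˣ,
      (L : Matrix (κ ⊕ μ) (κ ⊕ μ) R) = fromBlocks 1 0 Q 1 ∧ TT U L := by
    obtain ⟨L, hL⟩ := mk_tri (1 : (Matrix κ κ R)ˣ) (1 : (Matrix μ μ R)ˣ) Q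
    exact ⟨L, hL, TT_tri U _ _ _ L hL (TT_one U) (TT_one U)⟩
  obtain ⟨E, hE1, hE2⟩ : ∃ E : (Matrix (κ ⊕ μ) (κ ⊕ μ) R)ˣ,
      (E : Matrix (κ ⊕ μ) (κ ⊕ μ) R) = fromBlocks 1 (-P) 0 1 ∧ TT U E := by
    obtain ⟨E, hE⟩ := mk_tri (1 : (Matrix μ μ R)ˣ) (1 : (Matrix κ κ R)ˣ) (-P)
    refine ⟨Units.map (re (Equiv.sumComm κ μ)) E, ?_,
      TT_re U _ _ (TT_tri U _ _ _ E hE (TT_one U) (TT_one U))⟩
    change (E : Matrix (μ ⊕ κ) (μ ⊕ κ) R).submatrix (Equiv.sumComm κ μ) (Equiv.sumComm κ μ) = _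
    rw [hE]
    ext (i | i) (j | j) <;> rfl
  let SB : (Matrix (κ ⊕ μ) (κ ⊕ μ) R)ˣ :=
    Units.map (re (Equiv.sumComm κ μ)) (Units.map (stm κ) B)
  have hSB : (SB : Matrix (κ ⊕ μ) (κ ⊕ μ) R) = fromBlocks 1 0 0 (1 + Q * P) := by
    have : (B : Matrix μ μ R) = 1 + Q * P := rfl
    ext (i | i) (j | j) <;> simp [SB, stm, re, Matrix.one_apply, this]
  have hSA : (Units.map (stm μ) A : Matrix (κ ⊕ μ) (κ ⊕ μ) R) = fromBlocks (1 + P * Q) 0 0 1 := by
    change fromBlocks (A : Matrix κ κ R) 0 0 1 = _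
    rw [hA]
  have hSBT : TT U SB := TT_re U _ _ (TT_st U B hB)
  apply TT_unst U (μ := μ)
  have key : E * Units.map (stm μ) A * L = L * SB * E := by
    apply Units.ext
    rw [Units.val_mul, Units.val_mul, Units.val_mul, Units.val_mul, hSA, hSB, hE1, hL1,
      Matrix.fromBlocks_multiply, Matrix.fromBlocks_multiply, Matrix.fromBlocks_multiply,
      Matrix.fromBlocks_multiply]
    congr 1
    · simp [Matrix.neg_mul]
    · simp
    · simp
    · simp [Matrix.mul_neg]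
  have key2 : Units.map (stm μ) A = E⁻¹ * (L * SB * E) * L⁻¹ := by
    rw [← key]; group
  rw [key2]
  exact TT_mul U _ _ (TT_mul U _ _ (TT_inv U _ hE2) (TT_mul U _ _ (TT_mul U _ _ hL2 hSBT) hE2))
    (TT_inv U _ hL2)

/-- invertible diagonal matrices -/
def du (v : κ → Rˣ) : (Matrix κ κ R)ˣ where
  val := Matrix.diagonal fun i => (v i : R)
  inv := Matrix.diagonal fun i => ((v i)⁻¹ : Rˣ)
  val_inv := by
    rw [Matrix.diagonal_mul_diagonal, ← Matrix.diagonal_one]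
    congr 1
    funext i
    exact (v i).mul_inv
  inv_val := by
    rw [Matrix.diagonal_mul_diagonal, ← Matrix.diagonal_one]
    congr 1
    funext i
    exact (v i).inv_mul

theorem TT_du (hU : ∀ u : Rˣ, u ∈ U) (v : κ → Rˣ) : TT U (du v) := by
  apply TT_of_mem
  have key : ∀ s : Finset κ, du (fun i => if i ∈ s then v i else 1) ∈ HH U κ := by
    intro s
    induction s using Finset.induction_on with
    | empty =>
      have : du (fun i : κ => if i ∈ (∅ : Finset κ) then v i else 1) = 1 := by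
        apply Units.ext
        change Matrix.diagonal _ = 1
        rw [← Matrix.diagonal_one]
        congr 1
      rw [this]
      exact one_mem _
    | insert a s ha ih =>
      have : du (fun i => if i ∈ insert a s then v i else 1)
          = Units.map (dgm a) (v a) * du (fun i => if i ∈ s then v i else 1) := by
        apply Units.ext
        rw [Units.val_mul]
        change Matrix.diagonal _ = (dgm a (v a : R)) * Matrix.diagonal _
        rw [dgm_apply, Matrix.diagonal_mul_diagonal]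
        congr 1
        funext i
        by_cases h : i = a
        · subst h
          simp [ha]
        · simp [h]
      rw [this]
      exact mul_mem (dgm_mem_HH U _ _ (hU _)) ih
  have h := key Finset.univ
  simpa using h

end uv

section grp

variable {Γ : Type} [Group Γ]

theorem coeff_int_mul (m : ℤ) (x : MonoidAlgebra ℤ Γ) (g : Γ) :
    ((m : MonoidAlgebra ℤ Γ) * x).coeff g = m * x.coeff g := by
  rw [int_single, MonoidAlgebra.coeff_single_mul_apply, inv_one, one_mul]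

/-- reduction modulo `p` -/
noncomputable def rd (p : ℕ) : MonoidAlgebra ℤ Γ →+* MonoidAlgebra (ZMod p) Γ :=
  MonoidAlgebra.mapRingHom Γ (Int.castRingHom (ZMod p))

theorem rd_coeff (p : ℕ) (x : MonoidAlgebra ℤ Γ) (g : Γ) :
    (rd p x).coeff g = (x.coeff g : ZMod p) := by
  simp [rd]

theorem rd_single (p : ℕ) (g : Γ) (z : ℤ) :
    rd p (MonoidAlgebra.single g z) = MonoidAlgebra.single g (z : ZMod p) := by
  simp [rd]

theorem of_rd_zero (p : ℕ) (x : MonoidAlgebra ℤ Γ) (h : rd p x = 0) :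
    ∃ w : MonoidAlgebra ℤ Γ, x = ((p : ℤ) : MonoidAlgebra ℤ Γ) * w := by
  refine ⟨MonoidAlgebra.ofCoeff (x.coeff.mapRange (fun z => z / (p : ℤ)) (by simp)), ?_⟩
  ext g
  rw [coeff_int_mul]
  have h1 : ((x.coeff g : ℤ) : ZMod p) = 0 := by
    rw [← rd_coeff, h]; rfl
  rw [ZMod.intCast_zmod_eq_zero_iff_dvd] at h1
  simp only [Finsupp.mapRange_apply]
  exact (Int.mul_ediv_cancel' h1).symm

theorem int_cancel (m : ℤ) (hm : m ≠ 0) (x y : MonoidAlgebra ℤ Γ)
    (h : (m : MonoidAlgebra ℤ Γ) * x = (m : MonoidAlgebra ℤ Γ) * y) : x = y := by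
  ext g
  have h1 := congrArg (fun z => z.coeff g) h
  simp only [coeff_int_mul] at h1
  exact mul_left_cancel₀ hm h1

variable [UniqueProds Γ]

theorem all_TU (u : (MonoidAlgebra ℤ Γ)ˣ) : u ∈ TU Γ := by
  obtain ⟨r, g, h⟩ := TH57.TT2.unit_trivial u
  exact ⟨g, r, h⟩

/-- the prime case -/
theorem TT_prime (p : ℕ) (hp : p.Prime) (x : (Matrix (Fin 2) (Fin 2) (MonoidAlgebra ℤ Γ))ˣ)
    (a b c d : MonoidAlgebra ℤ Γ)
    (hx : (x : Matrix (Fin 2) (Fin 2) (MonoidAlgebra ℤ Γ)) =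
      !![((p : ℤ) : MonoidAlgebra ℤ Γ), b; c, d])
    (h1 : ((p : ℤ) : MonoidAlgebra ℤ Γ) * d - c * b = 1)
    (h2 : ((p : ℤ) : MonoidAlgebra ℤ Γ) * a - b * c = 1) : TT (TU Γ) x := by
  have : Fact p.Prime := ⟨hp⟩
  have hp0 : rd (Γ := Γ) p ((p : ℤ) : MonoidAlgebra ℤ Γ) = 0 := by
    rw [map_intCast]
    have : (((p : ℤ) : ZMod p)) = 0 := by simp
    have h3 : (((p : ℤ) : ℤ) : MonoidAlgebra (ZMod p) Γ) = MonoidAlgebra.single 1 (((p : ℤ) : ZMod p)) := by
      rw [← map_intCast (rd (Γ := Γ) p), int_single, rd_single]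
    rw [h3, this, MonoidAlgebra.single_zero]
  have e1 : rd p c * rd p b = -1 := by
    have := congrArg (rd p) h1
    rw [map_sub, map_mul, map_mul, hp0, zero_mul, zero_sub, map_one] at this
    rw [← this, neg_neg]
  have e2 : rd p b * rd p c = -1 := by
    have := congrArg (rd p) h2
    rw [map_sub, map_mul, map_mul, hp0, zero_mul, zero_sub, map_one] at this
    rw [← this, neg_neg]
  let bu : (MonoidAlgebra (ZMod p) Γ)ˣ :=
    ⟨rd p b, -rd p c, by rw [mul_neg, e2, neg_neg], by rw [neg_mul, e1, neg_neg]⟩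
  obtain ⟨r, g, hr⟩ := TH57.TT2.unit_trivial bu
  have hr' : rd p b = MonoidAlgebra.single g (r : ZMod p) := hr
  obtain ⟨l, hl⟩ : ∃ l : ℤ, (l : ZMod p) = (r : ZMod p) :=
    ZMod.intCast_surjective _
  have hgcd : IsCoprime (p : ℤ) l := by
    rw [Prime.coprime_iff_not_dvd (Nat.prime_iff_prime_int.1 hp)]
    intro hdvd
    rw [← ZMod.intCast_zmod_eq_zero_iff_dvd] at hdvd
    rw [hdvd] at hl
    exact r.ne_zero hl.symm
  obtain ⟨s, t, hst⟩ := hgcd
  obtain ⟨b1, hb1⟩ := of_rd_zero p (b - MonoidAlgebra.single g l) (by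
    rw [map_sub, hr', rd_single, hl, sub_self])
  let gu : (MonoidAlgebra ℤ Γ)ˣ :=
    ⟨MonoidAlgebra.single g⁻¹ 1, MonoidAlgebra.single g 1, by
      rw [MonoidAlgebra.single_mul_single, inv_mul_cancel, mul_one, MonoidAlgebra.one_def], by
      rw [MonoidAlgebra.single_mul_single, mul_inv_cancel, mul_one, MonoidAlgebra.one_def]⟩
  let H : (Matrix (Fin 2) (Fin 2) ℤ)ˣ :=
    { val := !![s, -l; t, (p : ℤ)]
      inv := !![(p : ℤ), l; -t, s]
      val_inv := by
        ext i j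
        fin_cases i <;> fin_cases j <;> simp [Matrix.mul_apply, Fin.sum_univ_two] <;>
          first | ring1 | linear_combination hst
      inv_val := by
        ext i j
        fin_cases i <;> fin_cases j <;> simp [Matrix.mul_apply, Fin.sum_univ_two] <;>
          first | ring1 | linear_combination hst }
  have hH : (Units.map (mpm (Int.castRingHom (MonoidAlgebra ℤ Γ))) H :
      Matrix (Fin 2) (Fin 2) (MonoidAlgebra ℤ Γ)) =
        !![(s : MonoidAlgebra ℤ Γ), -(l : MonoidAlgebra ℤ Γ); (t : MonoidAlgebra ℤ Γ),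
          ((p : ℤ) : MonoidAlgebra ℤ Γ)] := by
    ext i j
    fin_cases i <;> fin_cases j <;> simp [mpm, H]
  have hy : TT (TU Γ) (x * tv 0 1 (by decide) (-b1) * dg 1 gu *
      Units.map (mpm (Int.castRingHom (MonoidAlgebra ℤ Γ))) H) := by
    have hbb : ((p : ℤ) : MonoidAlgebra ℤ Γ) * -b1 + b = MonoidAlgebra.single g l := by
      rw [mul_neg, ← hb1]; abel
    apply TT_low (TU Γ) all_TU _
      (c * (s : MonoidAlgebra ℤ Γ) + (c * -b1 + d) * MonoidAlgebra.single g⁻¹ 1 * (t : MonoidAlgebra ℤ Γ))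
      (c * -(l : MonoidAlgebra ℤ Γ) + (c * -b1 + d) * MonoidAlgebra.single g⁻¹ 1 * ((p : ℤ) : MonoidAlgebra ℤ Γ))
    rw [Units.val_mul, Units.val_mul, Units.val_mul, hx, hH, dg_val]
    change !![((p : ℤ) : MonoidAlgebra ℤ Γ), b; c, d] * (1 + Matrix.single 0 1 (-b1)) *
      !![((1 : (MonoidAlgebra ℤ Γ)ˣ) : MonoidAlgebra ℤ Γ), 0; 0, MonoidAlgebra.single g⁻¹ 1] * _ = _
    have e3 : !![((p : ℤ) : MonoidAlgebra ℤ Γ), b; c, d] * (1 + Matrix.single 0 1 (-b1)) =
        !![((p : ℤ) : MonoidAlgebra ℤ Γ), ((p : ℤ) : MonoidAlgebra ℤ Γ) * -b1 + b; c, c * -b1 + d] := by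
      ext1 i j
      fin_cases i <;> fin_cases j <;>
        simp [Matrix.mul_apply, Fin.sum_univ_two, Matrix.single_apply, Matrix.one_apply]
    rw [e3, hbb, Units.val_one, Matrix.mul_fin_two, Matrix.mul_fin_two]
    have e4 : (MonoidAlgebra.single g l : MonoidAlgebra ℤ Γ) * MonoidAlgebra.single g⁻¹ 1
        = (l : MonoidAlgebra ℤ Γ) := by
      rw [MonoidAlgebra.single_mul_single, mul_inv_cancel, mul_one, int_single]
    simp only [mul_zero, mul_one, zero_add, add_zero, e4]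
    have e5 : ((p : ℤ) : MonoidAlgebra ℤ Γ) * (s : MonoidAlgebra ℤ Γ) +
        (l : MonoidAlgebra ℤ Γ) * (t : MonoidAlgebra ℤ Γ) = 1 := by
      rw [← Int.cast_mul, ← Int.cast_mul, ← Int.cast_add, ← Int.cast_one]
      congr 1
      linear_combination hst
    have e6 : ((p : ℤ) : MonoidAlgebra ℤ Γ) * -(l : MonoidAlgebra ℤ Γ) +
        (l : MonoidAlgebra ℤ Γ) * ((p : ℤ) : MonoidAlgebra ℤ Γ) = 0 := by
      rw [mul_neg, (Int.cast_commute (p : ℤ) (l : MonoidAlgebra ℤ Γ)).eq]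
      abel
    rw [e5, e6]
  have hx2 : x = (x * tv 0 1 (by decide) (-b1) * dg 1 gu *
      Units.map (mpm (Int.castRingHom (MonoidAlgebra ℤ Γ))) H) *
      (Units.map (mpm (Int.castRingHom (MonoidAlgebra ℤ Γ))) H)⁻¹ * (dg 1 gu)⁻¹ *
      (tv 0 1 (by decide) (-b1))⁻¹ := by
    group
  rw [hx2]
  exact TT_mul _ _ _ (TT_mul _ _ _ (TT_mul _ _ _ hy (TT_inv _ _ (TT_im H)))
    (TT_inv _ _ (TT_dg _ all_TU _ _))) (TT_inv _ _ (TT_tv _ _ _ _ _))

/-- normalised `2 × 2` matrices with an integer entry -/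
theorem TT_norm : ∀ (k : ℕ) (m : ℤ), m.natAbs = k → m ≠ 0 → ∀ (a b c d : MonoidAlgebra ℤ Γ)
    (h1 : (m : MonoidAlgebra ℤ Γ) * d - c * b = 1) (h2 : (m : MonoidAlgebra ℤ Γ) * a - b * c = 1)
    (h3 : c * a = d * c) (h4 : a * b = b * d), TT (TU Γ) (X2 m a b c d h1 h2 h3 h4) := by
  intro k
  induction k using Nat.strong_induction_on with
  | _ k ih =>
    intro m hk hm a b c d h1 h2 h3 h4
    by_cases hm1 : m.natAbs = 1
    · -- unit entry
      have hmm : m * m = 1 := by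
        rcases Int.natAbs_eq m with h | h <;> rw [hm1] at h <;> rw [h] <;> norm_num
      have hmm' : (m : MonoidAlgebra ℤ Γ) * (m : MonoidAlgebra ℤ Γ) = 1 := by
        rw [← Int.cast_mul, hmm, Int.cast_one]
      let mu : (MonoidAlgebra ℤ Γ)ˣ := ⟨m, m, hmm', hmm'⟩
      have hy : TT (TU Γ) (X2 m a b c d h1 h2 h3 h4 *
          tv 0 1 (by decide) (-((m : MonoidAlgebra ℤ Γ) * b)) * dg mu 1) := by
        apply TT_low (TU Γ) all_TU _ (c * (m : MonoidAlgebra ℤ Γ))
          (c * -((m : MonoidAlgebra ℤ Γ) * b) + d)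
        rw [Units.val_mul, Units.val_mul, X2_val, dg_val]
        change !![(m : MonoidAlgebra ℤ Γ), b; c, d] *
          (1 + Matrix.single 0 1 (-((m : MonoidAlgebra ℤ Γ) * b))) *
          !![(m : MonoidAlgebra ℤ Γ), 0; 0, ((1 : (MonoidAlgebra ℤ Γ)ˣ) : MonoidAlgebra ℤ Γ)] = _
        have e3 : !![(m : MonoidAlgebra ℤ Γ), b; c, d] *
            (1 + Matrix.single 0 1 (-((m : MonoidAlgebra ℤ Γ) * b))) =
            !![(m : MonoidAlgebra ℤ Γ), (m : MonoidAlgebra ℤ Γ) * -((m : MonoidAlgebra ℤ Γ) * b) + b;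
              c, c * -((m : MonoidAlgebra ℤ Γ) * b) + d] := by
          ext1 i j
          fin_cases i <;> fin_cases j <;>
            simp [Matrix.mul_apply, Fin.sum_univ_two, Matrix.single_apply, Matrix.one_apply]
        have e4 : (m : MonoidAlgebra ℤ Γ) * -((m : MonoidAlgebra ℤ Γ) * b) + b = 0 := by
          rw [mul_neg, ← mul_assoc, hmm', one_mul]; abel
        rw [e3, e4, Units.val_one, Matrix.mul_fin_two]
        simp only [mul_zero, zero_mul, mul_one, zero_add, add_zero, hmm']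
      have hx2 : X2 m a b c d h1 h2 h3 h4 = (X2 m a b c d h1 h2 h3 h4 *
          tv 0 1 (by decide) (-((m : MonoidAlgebra ℤ Γ) * b)) * dg mu 1) * (dg mu 1)⁻¹ *
          (tv 0 1 (by decide) (-((m : MonoidAlgebra ℤ Γ) * b)))⁻¹ := by group
      rw [hx2]
      exact TT_mul _ _ _ (TT_mul _ _ _ hy (TT_inv _ _ (TT_dg _ all_TU _ _)))
        (TT_inv _ _ (TT_tv _ _ _ _ _))
    · obtain ⟨p, hp, hpm⟩ := Nat.exists_prime_and_dvd hm1
      obtain ⟨m', hm'⟩ : (p : ℤ) ∣ m := Int.natCast_dvd.2 hpm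
      have hm'0 : m' ≠ 0 := by
        rintro rfl
        exact hm (by rw [hm', mul_zero])
      have hlt : m'.natAbs < k := by
        rw [← hk, hm', Int.natAbs_mul, Int.natAbs_natCast]
        have h5 : 0 < m'.natAbs := Int.natAbs_pos.2 hm'0
        have h6 := hp.two_le
        nlinarith
      subst hm'
      have hc : (((p : ℤ) * m' : ℤ) : MonoidAlgebra ℤ Γ)
          = ((p : ℤ) : MonoidAlgebra ℤ Γ) * (m' : MonoidAlgebra ℤ Γ) := Int.cast_mul _ _
      have cm : ∀ (z : ℤ) (y w : MonoidAlgebra ℤ Γ), y * ((z : MonoidAlgebra ℤ Γ) * w)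
          = (z : MonoidAlgebra ℤ Γ) * (y * w) := fun z y w => by
        rw [← mul_assoc, ← (Int.cast_commute z y).eq, mul_assoc]
      rw [hc] at h1 h2
      have g1 : ((p : ℤ) : MonoidAlgebra ℤ Γ) * ((m' : MonoidAlgebra ℤ Γ) * d) - c * b = 1 := by
        rw [← mul_assoc]; exact h1
      have g2 : ((p : ℤ) : MonoidAlgebra ℤ Γ) * ((m' : MonoidAlgebra ℤ Γ) * a) - b * c = 1 := by
        rw [← mul_assoc]; exact h2
      have g3 : c * ((m' : MonoidAlgebra ℤ Γ) * a) = (m' : MonoidAlgebra ℤ Γ) * d * c := by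
        rw [cm, h3, mul_assoc]
      have g4 : (m' : MonoidAlgebra ℤ Γ) * a * b = b * ((m' : MonoidAlgebra ℤ Γ) * d) := by
        rw [cm, mul_assoc, h4]
      have f1 : (m' : MonoidAlgebra ℤ Γ) * (((p : ℤ) : MonoidAlgebra ℤ Γ) * d) - c * b = 1 := by
        rw [← mul_assoc, (Int.cast_commute m' (((p : ℤ) : MonoidAlgebra ℤ Γ))).eq]; exact h1
      have f2 : (m' : MonoidAlgebra ℤ Γ) * (((p : ℤ) : MonoidAlgebra ℤ Γ) * a) - b * c = 1 := by
        rw [← mul_assoc, (Int.cast_commute m' (((p : ℤ) : MonoidAlgebra ℤ Γ))).eq]; exact h2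
      have f3 : c * (((p : ℤ) : MonoidAlgebra ℤ Γ) * a) = ((p : ℤ) : MonoidAlgebra ℤ Γ) * d * c := by
        rw [cm, h3, mul_assoc]
      have f4 : ((p : ℤ) : MonoidAlgebra ℤ Γ) * a * b = b * (((p : ℤ) : MonoidAlgebra ℤ Γ) * d) := by
        rw [cm, mul_assoc, h4]
      apply TT_step (TU Γ) _ (X2 (p : ℤ) _ b c _ g1 g2 g3 g4) (X2 m' _ b c _ f1 f2 f3 f4)
        (p : ℤ) m' b c d g1
      · rw [X2_val, hc]
      · rw [X2_val]
      · rw [X2_val]
      · exact TT_prime p hp _ _ b c _ (X2_val _ _ _ _ _ _ _ _ _) g1 g2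
      · exact ih _ hlt m' rfl hm'0 _ _ _ _ _ _ _ _

/-- divisibility by integers -/
theorem dvd_of (b : MonoidAlgebra ℤ Γ) : ∀ (k : ℕ) (m : ℤ), m.natAbs = k → m ≠ 0 →
    (∀ p : ℕ, p.Prime → (p : ℤ) ∣ m → rd p b ≠ 0) → ∀ z w : MonoidAlgebra ℤ Γ,
    b * z = (m : MonoidAlgebra ℤ Γ) * w → ∃ v, z = (m : MonoidAlgebra ℤ Γ) * v := by
  intro k
  induction k using Nat.strong_induction_on with
  | _ k ih =>
    intro m hk hm hb z w h
    by_cases hm1 : m.natAbs = 1
    · have hmm : m * m = 1 := by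
        rcases Int.natAbs_eq m with h | h <;> rw [hm1] at h <;> rw [h] <;> norm_num
      refine ⟨(m : MonoidAlgebra ℤ Γ) * z, ?_⟩
      rw [← mul_assoc, ← Int.cast_mul, hmm, Int.cast_one, one_mul]
    · obtain ⟨p, hp, hpm⟩ := Nat.exists_prime_and_dvd hm1
      have : Fact p.Prime := ⟨hp⟩
      have hpd : (p : ℤ) ∣ m := Int.natCast_dvd.2 hpm
      have hbp := hb p hp hpd
      obtain ⟨m', hm'⟩ := hpd
      have hm'0 : m' ≠ 0 := by
        rintro rfl
        exact hm (by rw [hm', mul_zero])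
      have hlt : m'.natAbs < k := by
        rw [← hk, hm', Int.natAbs_mul, Int.natAbs_natCast]
        have h5 : 0 < m'.natAbs := Int.natAbs_pos.2 hm'0
        have h6 := hp.two_le
        nlinarith
      have hp0 : rd (Γ := Γ) p ((p : ℤ) : MonoidAlgebra ℤ Γ) = 0 := by
        rw [int_single, rd_single]; simp
      have h5 : rd p b * rd p z = 0 := by
        rw [← map_mul, h, hm', Int.cast_mul, map_mul, map_mul, hp0, zero_mul, zero_mul]
      have h6 : rd p z = 0 := (mul_eq_zero.1 h5).resolve_left hbp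
      obtain ⟨z', hz'⟩ := of_rd_zero p z h6
      have h7 : b * z' = (m' : MonoidAlgebra ℤ Γ) * w := by
        apply int_cancel (p : ℤ) (by exact_mod_cast hp.ne_zero)
        rw [← mul_assoc, (Int.cast_commute (p : ℤ) b).eq, mul_assoc, ← hz', h, hm', Int.cast_mul,
          mul_assoc]
      obtain ⟨v, hv⟩ := ih _ hlt m' rfl hm'0 (fun q hq hqm => hb q hq (by
        rw [hm']; exact Dvd.dvd.mul_left hqm _)) z' w h7
      exact ⟨v, by rw [hz', hv, hm', Int.cast_mul, mul_assoc]⟩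

/-- **invertible `2 × 2` matrices with an integer entry** -/
theorem TT_two (x : (Matrix (Fin 2) (Fin 2) (MonoidAlgebra ℤ Γ))ˣ) (m : ℤ)
    (hm : (x : Matrix (Fin 2) (Fin 2) (MonoidAlgebra ℤ Γ)) 0 0 = (m : MonoidAlgebra ℤ Γ)) :
    TT (TU Γ) x := by
  obtain ⟨b, hb⟩ : ∃ b, b = (x : Matrix (Fin 2) (Fin 2) (MonoidAlgebra ℤ Γ)) 0 1 := ⟨_, rfl⟩
  obtain ⟨c, hc⟩ : ∃ c, c = (x : Matrix (Fin 2) (Fin 2) (MonoidAlgebra ℤ Γ)) 1 0 := ⟨_, rfl⟩
  obtain ⟨d, hd⟩ : ∃ d, d = (x : Matrix (Fin 2) (Fin 2) (MonoidAlgebra ℤ Γ)) 1 1 := ⟨_, rfl⟩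
  have hx : (x : Matrix (Fin 2) (Fin 2) (MonoidAlgebra ℤ Γ)) = !![(m : MonoidAlgebra ℤ Γ), b; c, d] := by
    rw [← hm, hb, hc, hd]
    ext1 i j
    fin_cases i <;> fin_cases j <;> rfl
  obtain ⟨y, hy⟩ : ∃ y : Matrix (Fin 2) (Fin 2) (MonoidAlgebra ℤ Γ), y = ((x⁻¹ :
    (Matrix (Fin 2) (Fin 2) (MonoidAlgebra ℤ Γ))ˣ) : Matrix (Fin 2) (Fin 2) (MonoidAlgebra ℤ Γ)) :=
    ⟨_, rfl⟩
  have h1 : (x : Matrix (Fin 2) (Fin 2) (MonoidAlgebra ℤ Γ)) * y = 1 := by rw [hy]; exact x.mul_inv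
  have h2 : y * (x : Matrix (Fin 2) (Fin 2) (MonoidAlgebra ℤ Γ)) = 1 := by rw [hy]; exact x.inv_mul
  rw [hx] at h1 h2
  have r00 := congrFun (congrFun h1 0) 0
  have r01 := congrFun (congrFun h1 0) 1
  have r10 := congrFun (congrFun h1 1) 0
  have r11 := congrFun (congrFun h1 1) 1
  have l00 := congrFun (congrFun h2 0) 0
  have l01 := congrFun (congrFun h2 0) 1
  have l10 := congrFun (congrFun h2 1) 0
  have l11 := congrFun (congrFun h2 1) 1
  simp only [Matrix.mul_apply, Fin.sum_univ_two, Matrix.of_apply, Matrix.cons_val', Matrix.cons_val_zero,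
    Matrix.cons_val_one, Matrix.cons_val_fin_one, Matrix.one_apply_eq] at r00 r01 r10 r11 l00 l01 l10 l11
  rw [Matrix.one_apply_ne (by decide)] at r01 r10 l01 l10
  by_cases hm0 : m = 0
  · subst hm0
    simp only [Int.cast_zero, zero_mul, mul_zero, zero_add] at r00 r01 l00 l10
    have hb0 : b ≠ 0 := by
      rintro rfl
      rw [zero_mul] at r00
      exact zero_ne_one r00
    have hy11 : y 1 1 = 0 := (mul_eq_zero.1 r01).resolve_left hb0
    rw [hy11, zero_mul, add_zero] at l11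
    rw [hy11, mul_zero, add_zero] at r11
    let bu : (MonoidAlgebra ℤ Γ)ˣ := ⟨y 1 0, b, l11, r00⟩
    let W : (Matrix (Fin 2) (Fin 2) ℤ)ˣ :=
      { val := !![0, 1; 1, 0]
        inv := !![0, 1; 1, 0]
        val_inv := by decide
        inv_val := by decide }
    have hW : (Units.map (mpm (Int.castRingHom (MonoidAlgebra ℤ Γ))) W :
        Matrix (Fin 2) (Fin 2) (MonoidAlgebra ℤ Γ)) = !![0, 1; 1, 0] := by
      ext1 i j
      fin_cases i <;> fin_cases j <;> simp [mpm, W]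
    have hz : TT (TU Γ) (x * Units.map (mpm (Int.castRingHom (MonoidAlgebra ℤ Γ))) W *
        dg bu 1) := by
      apply TT_low (TU Γ) all_TU _ (d * y 1 0) c
      rw [Units.val_mul, Units.val_mul, hx, hW, dg_val]
      change _ * _ * !![y 1 0, 0; 0, ((1 : (MonoidAlgebra ℤ Γ)ˣ) : MonoidAlgebra ℤ Γ)] = _
      rw [Matrix.mul_fin_two, Matrix.mul_fin_two, Units.val_one]
      simp only [Int.cast_zero, mul_zero, mul_one, zero_add, add_zero, r00]
    have hx2 : x = (x * Units.map (mpm (Int.castRingHom (MonoidAlgebra ℤ Γ))) W *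
        dg bu 1) * (dg bu 1)⁻¹ *
        (Units.map (mpm (Int.castRingHom (MonoidAlgebra ℤ Γ))) W)⁻¹ := by group
    rw [hx2]
    exact TT_mul _ _ _ (TT_mul _ _ _ hz (TT_inv _ _ (TT_dg _ all_TU _ _)))
      (TT_inv _ _ (TT_im W))
  · have hbp : ∀ p : ℕ, p.Prime → (p : ℤ) ∣ m → rd p b ≠ 0 := by
      intro p hp hpm hbp
      have : Fact p.Prime := ⟨hp⟩
      obtain ⟨m', rfl⟩ := hpm
      have hp0 : rd (Γ := Γ) p ((p : ℤ) : MonoidAlgebra ℤ Γ) = 0 := by
        rw [int_single, rd_single]; simp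
      have h5 := congrArg (rd p) r00
      rw [map_add, map_mul, map_mul, hbp, Int.cast_mul, map_mul, hp0, zero_mul, zero_mul, zero_mul,
        add_zero, map_one] at h5
      exact zero_ne_one h5
    obtain ⟨δ, hδ⟩ := dvd_of b _ m rfl hm0 hbp (y 1 1) (-(y 0 1)) (by
      rw [mul_neg, ← add_eq_zero_iff_eq_neg, ← r01]; abel)
    have cm : ∀ (y w : MonoidAlgebra ℤ Γ), y * ((m : MonoidAlgebra ℤ Γ) * w)
        = (m : MonoidAlgebra ℤ Γ) * (y * w) := fun y w => by
      rw [← mul_assoc, ← (Int.cast_commute m y).eq, mul_assoc]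
    have k1 : y 0 1 = -(b * δ) := by
      apply int_cancel m hm0
      rw [hδ, cm] at r01
      rw [mul_neg]
      exact eq_neg_of_add_eq_zero_left r01
    have k2 : y 1 0 = -(δ * c) := by
      apply int_cancel m hm0
      rw [hδ, mul_assoc, ← (Int.cast_commute m (y 1 0)).eq] at l10
      rw [mul_neg]
      exact eq_neg_of_add_eq_zero_left l10
    rw [k2] at r00 r10 l11
    rw [k1] at r11 l01 l00
    rw [hδ] at r11 l11
    have u1 : ((m : MonoidAlgebra ℤ Γ) * d - c * b) * δ = 1 := by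
      rw [← r11, cm]; noncomm_ring
    have u2 : δ * ((m : MonoidAlgebra ℤ Γ) * d - c * b) = 1 := by
      rw [← l11, mul_sub, cm]; noncomm_ring
    let du : (MonoidAlgebra ℤ Γ)ˣ := ⟨δ, _, u2, u1⟩
    have g1 : (m : MonoidAlgebra ℤ Γ) * (δ * d) - δ * c * b = 1 := by
      rw [← u2, mul_sub, cm, mul_assoc]
    have g2 : (m : MonoidAlgebra ℤ Γ) * y 0 0 - b * (δ * c) = 1 := by
      rw [← r00]; noncomm_ring
    have g3 : δ * c * y 0 0 = δ * d * (δ * c) := by
      have : c * y 0 0 = d * (δ * c) := by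
        rw [mul_neg, ← sub_eq_add_neg] at r10
        exact sub_eq_zero.1 r10
      rw [mul_assoc, this, mul_assoc]
    have g4 : y 0 0 * b = b * (δ * d) := by
      rw [neg_mul, ← sub_eq_add_neg, mul_assoc] at l01
      exact sub_eq_zero.1 l01
    have hn := TT_norm (Γ := Γ) _ m rfl hm0 (y 0 0) b (δ * c) (δ * d) g1 g2 g3 g4
    have hx2 : x = (dg 1 du)⁻¹ * X2 m (y 0 0) b (δ * c) (δ * d) g1 g2 g3 g4 := by
      rw [eq_inv_mul_iff_mul_eq]
      apply Units.ext
      rw [Units.val_mul, X2_val, dg_val, hx]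
      change !![((1 : (MonoidAlgebra ℤ Γ)ˣ) : MonoidAlgebra ℤ Γ), 0; 0, δ] * _ = _
      rw [Matrix.mul_fin_two, Units.val_one]
      simp only [one_mul, zero_mul, add_zero, zero_add]
    rw [hx2]
    exact TT_mul _ _ _ (TT_inv _ _ (TT_dg _ all_TU _ _)) hn

end grp

end Pool.Agent.X263.Bd
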