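import Pool.Agent.TH57.TT2.KR4
import Pool.Agent.TH57.Thr.Asm

/-!
Invertible `2 × 2` matrices with an integer entry: the general identities.
-/

set_option autoImplicit false

namespace Pool.Agent.X263.Bd

open Matrix TH57.Thr

section ring

variable {R : Type} [Ring R]

/-- the matrix `(m, b; c, d)` with `m d - c b = 1` -/
def X2 (m : ℤ) (a b c d : R) (h1 : (m : R) * d - c * b = 1) (h2 : (m : R) * a - b * c = 1)
    (h3 : c * a = d * c) (h4 : a * b = b * d) : (Matrix (Fin 2) (Fin 2) R)ˣ where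
  val := !![(m : R), b; c, d]
  inv := !![a, -b; -c, (m : R)]
  val_inv := by
    rw [Matrix.mul_fin_two, Matrix.one_fin_two]
    congr 1
    ext i j
    fin_cases i <;> fin_cases j
    · simp only [Fin.zero_eta, Matrix.of_apply, Matrix.cons_val_zero, Matrix.cons_val', mul_neg,
        ← sub_eq_add_neg, h2]
    · change (m : R) * -b + b * (m : R) = 0
      rw [mul_neg, (Int.cast_commute m b).eq]
      abel
    · change c * a + d * -c = 0
      rw [h3, mul_neg]
      abel
    · change c * -b + d * (m : R) = 1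
      rw [mul_neg, ← (Int.cast_commute m d).eq, ← h1]
      abel
  inv_val := by
    rw [Matrix.mul_fin_two, Matrix.one_fin_two]
    congr 1
    ext i j
    fin_cases i <;> fin_cases j
    · change a * (m : R) + -b * c = 1
      rw [← (Int.cast_commute m a).eq, neg_mul, ← h2]
      abel
    · change a * b + -b * d = 0
      rw [h4, neg_mul]
      abel
    · change -c * (m : R) + (m : R) * c = 0
      rw [neg_mul, (Int.cast_commute m c).eq]
      abel
    · change -c * b + (m : R) * d = 1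
      rw [neg_mul, ← h1]
      abel

theorem X2_val (m : ℤ) (a b c d : R) (h1 : (m : R) * d - c * b = 1) (h2 : (m : R) * a - b * c = 1)
    (h3 : c * a = d * c) (h4 : a * b = b * d) :
    (X2 m a b c d h1 h2 h3 h4 : Matrix (Fin 2) (Fin 2) R) = !![(m : R), b; c, d] := rfl

/-- three coordinates -/
def e3 : Fin 3 ≃ Fin 2 ⊕ Unit where
  toFun := ![Sum.inl 0, Sum.inl 1, Sum.inr ()]
  invFun := Sum.elim ![0, 1] fun _ => 2
  left_inv i := by fin_cases i <;> rfl
  right_inv := by
    rintro (i | i)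
    · fin_cases i <;> rfl
    · rfl

/-- three coordinates, in another order -/
def e3' : Fin 3 ≃ Fin 2 ⊕ Unit where
  toFun := ![Sum.inl 0, Sum.inr (), Sum.inl 1]
  invFun := Sum.elim ![0, 2] fun _ => 1
  left_inv i := by fin_cases i <;> rfl
  right_inv := by
    rintro (i | i)
    · fin_cases i <;> rfl
    · rfl

theorem st3 (x : (Matrix (Fin 2) (Fin 2) R)ˣ) (p q r s : R)
    (hx : (x : Matrix (Fin 2) (Fin 2) R) = !![p, q; r, s]) :
    (Units.map (re e3) (Units.map (stm Unit) x) : Matrix (Fin 3) (Fin 3) R) =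
      !![p, q, 0; r, s, 0; 0, 0, 1] := by
  have h : (Units.map (re e3) (Units.map (stm Unit) x) : Matrix (Fin 3) (Fin 3) R) =
      (fromBlocks (x : Matrix (Fin 2) (Fin 2) R) 0 0 (1 : Matrix Unit Unit R)).submatrix e3 e3 := rfl
  rw [h, hx]
  ext i j
  fin_cases i <;> fin_cases j <;> rfl

theorem st3' (x : (Matrix (Fin 2) (Fin 2) R)ˣ) (p q r s : R)
    (hx : (x : Matrix (Fin 2) (Fin 2) R) = !![p, q; r, s]) :
    (Units.map (re e3') (Units.map (stm Unit) x) : Matrix (Fin 3) (Fin 3) R) =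
      !![p, 0, q; 0, 1, 0; r, 0, s] := by
  have h : (Units.map (re e3') (Units.map (stm Unit) x) : Matrix (Fin 3) (Fin 3) R) =
      (fromBlocks (x : Matrix (Fin 2) (Fin 2) R) 0 0 (1 : Matrix Unit Unit R)).submatrix e3' e3' :=
    rfl
  rw [h, hx]
  ext i j
  fin_cases i <;> fin_cases j <;> rfl

/-- the main identity -/
theorem main_identity (p m : ℤ) (b c d : R) (h : (p : R) * ((m : R) * d) - c * b = 1) :
    !![(1 : R), 0, 0; -(d * c), 1, (p : R) * d; 0, 0, 1] *
      !![(p : R), 0, b; 0, 1, 0; c, 0, (m : R) * d] *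
      !![(m : R), b, 0; c, (p : R) * d, 0; 0, 0, 1] *
      !![(1 : R), 0, 0; (m : R) * c, (m : R) * d, -1; -((p : R) * ((m : R) * c)), -(c * b), (p : R)] =
    !![(p : R) * (m : R), b, 0; c, d, 0; 0, 0, 1] := by
  have hbp : b * (p : R) = (p : R) * b := (Int.cast_commute p b).eq.symm
  have hcp : c * (p : R) = (p : R) * c := (Int.cast_commute p c).eq.symm
  have hdp : d * (p : R) = (p : R) * d := (Int.cast_commute p d).eq.symm
  have hbm : b * (m : R) = (m : R) * b := (Int.cast_commute m b).eq.symm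
  have hcm : c * (m : R) = (m : R) * c := (Int.cast_commute m c).eq.symm
  have hdm : d * (m : R) = (m : R) * d := (Int.cast_commute m d).eq.symm
  have hmp : (m : R) * (p : R) = (p : R) * (m : R) := (Int.cast_commute m (p : R)).eq
  have hbp' : ∀ y, b * ((p : R) * y) = (p : R) * (b * y) := fun y => by
    rw [← mul_assoc, hbp, mul_assoc]
  have hcp' : ∀ y, c * ((p : R) * y) = (p : R) * (c * y) := fun y => by
    rw [← mul_assoc, hcp, mul_assoc]
  have hdp' : ∀ y, d * ((p : R) * y) = (p : R) * (d * y) := fun y => by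
    rw [← mul_assoc, hdp, mul_assoc]
  have hbm' : ∀ y, b * ((m : R) * y) = (m : R) * (b * y) := fun y => by
    rw [← mul_assoc, hbm, mul_assoc]
  have hcm' : ∀ y, c * ((m : R) * y) = (m : R) * (c * y) := fun y => by
    rw [← mul_assoc, hcm, mul_assoc]
  have hdm' : ∀ y, d * ((m : R) * y) = (m : R) * (d * y) := fun y => by
    rw [← mul_assoc, hdm, mul_assoc]
  have hmp' : ∀ y, (m : R) * ((p : R) * y) = (p : R) * ((m : R) * y) := fun y => by
    rw [← mul_assoc, hmp, mul_assoc]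
  have hcb : c * b = (p : R) * ((m : R) * d) - 1 := by rw [← h]; abel
  have hcb' : ∀ y, c * (b * y) = (p : R) * ((m : R) * (d * y)) - y := fun y => by
    rw [← mul_assoc, hcb, sub_mul, one_mul, mul_assoc, mul_assoc]
  ext i j
  fin_cases i <;> fin_cases j <;>
    simp [Matrix.mul_apply, Fin.sum_univ_three] <;>
    simp only [mul_assoc, add_mul, mul_add, sub_mul, mul_sub, hbp, hcp, hdp, hbm, hcm, hdm, hmp,
      hbp', hcp', hdp', hbm', hcm', hdm', hmp', hcb, hcb', neg_mul, mul_neg, mul_one, one_mul] <;>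
    abel

/-- the left factor -/
def Lf (p d c : R) : (Matrix (Fin 3) (Fin 3) R)ˣ :=
  tv 1 0 (by decide) (-(d * c)) * tv 1 2 (by decide) (p * d)

theorem Lf_val (p d c : R) : (Lf p d c : Matrix (Fin 3) (Fin 3) R) =
    !![(1 : R), 0, 0; -(d * c), 1, p * d; 0, 0, 1] := by
  unfold Lf
  rw [Units.val_mul]
  change (1 + Matrix.single 1 0 (-(d * c))) * (1 + Matrix.single 1 2 (p * d)) = _
  ext i j
  fin_cases i <;> fin_cases j <;>
    simp [Matrix.mul_apply, Fin.sum_univ_three, Matrix.single_apply, Matrix.one_apply]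

/-- the right factor -/
def Rt (p x y : R) : (Matrix (Fin 3) (Fin 3) R)ˣ :=
  tv 2 1 (by decide) (-p) * (tv 1 0 (by decide) x * tv 1 2 (by decide) y) *
    (tv 1 2 (by decide) (-1) * tv 2 1 (by decide) 1 * tv 1 2 (by decide) (-1))

theorem Rt_val (p x y : R) : (Rt p x y : Matrix (Fin 3) (Fin 3) R) =
    !![(1 : R), 0, 0; x, y, -1; -(p * x), -(p * y) + 1, p] := by
  unfold Rt
  simp only [Units.val_mul]
  change (1 + Matrix.single 2 1 (-p)) * ((1 + Matrix.single 1 0 x) * (1 + Matrix.single 1 2 y)) *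
    ((1 + Matrix.single 1 2 (-1)) * (1 + Matrix.single 2 1 1) * (1 + Matrix.single 1 2 (-1))) = _
  ext i j
  fin_cases i <;> fin_cases j <;>
    simp [Matrix.mul_apply, Fin.sum_univ_three, Matrix.single_apply, Matrix.one_apply]

variable (U : Subgroup Rˣ)

theorem TT_Lf (p d c : R) : TT U (Lf p d c) := TT_mul U _ _ (TT_tv U _ _ _ _) (TT_tv U _ _ _ _)

theorem TT_Rt (p x y : R) : TT U (Rt p x y) :=
  TT_mul U _ _ (TT_mul U _ _ (TT_tv U _ _ _ _) (TT_mul U _ _ (TT_tv U _ _ _ _) (TT_tv U _ _ _ _)))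
    (TT_mul U _ _ (TT_mul U _ _ (TT_tv U _ _ _ _) (TT_tv U _ _ _ _)) (TT_tv U _ _ _ _))

theorem TT_of_re {κ μ : Type} [Fintype κ] [DecidableEq κ] [Fintype μ] [DecidableEq μ]
    (e : μ ≃ κ) (x : (Matrix κ κ R)ˣ) (h : TT U (Units.map (re e) x)) : TT U x := by
  have h1 := TT_re U e.symm _ h
  have h2 : Units.map (re e.symm) (Units.map (re e) x) = x := by
    apply Units.ext
    change ((x : Matrix κ κ R).submatrix e e).submatrix e.symm e.symm = x
    rw [Matrix.submatrix_submatrix]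
    ext i j
    simp
  rwa [h2] at h1

/-- **multiplicativity in the integer entry** -/
theorem TT_step (x xp xm : (Matrix (Fin 2) (Fin 2) R)ˣ) (p m : ℤ) (b c d : R)
    (h : (p : R) * ((m : R) * d) - c * b = 1)
    (hx : (x : Matrix (Fin 2) (Fin 2) R) = !![(p : R) * (m : R), b; c, d])
    (hxp : (xp : Matrix (Fin 2) (Fin 2) R) = !![(p : R), b; c, (m : R) * d])
    (hxm : (xm : Matrix (Fin 2) (Fin 2) R) = !![(m : R), b; c, (p : R) * d])
    (hp : TT U xp) (hm : TT U xm) : TT U x := by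
  apply TT_unst U (μ := Unit)
  apply TT_of_re U e3
  have h1 : Units.map (re e3) (Units.map (stm Unit) x) =
      Lf (p : R) d c * Units.map (re e3') (Units.map (stm Unit) xp) *
        Units.map (re e3) (Units.map (stm Unit) xm) * Rt (p : R) ((m : R) * c) ((m : R) * d) := by
    apply Units.ext
    rw [Units.val_mul, Units.val_mul, Units.val_mul, Lf_val, Rt_val, st3 x _ _ _ _ hx,
      st3' xp _ _ _ _ hxp, st3 xm _ _ _ _ hxm]
    have h2 : -((p : R) * ((m : R) * d)) + 1 = -(c * b) := by rw [← h]; abel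
    rw [h2, main_identity p m b c d h]
  rw [h1]
  exact TT_mul U _ _ (TT_mul U _ _ (TT_mul U _ _ (TT_Lf U _ _ _)
    (TT_re U _ _ (TT_st U _ hp))) (TT_re U _ _ (TT_st U _ hm))) (TT_Rt U _ _ _)

/-- lower triangular matrices -/
theorem TT_low (hU : ∀ u : Rˣ, u ∈ U) (x : (Matrix (Fin 2) (Fin 2) R)ˣ) (c d : R)
    (hx : (x : Matrix (Fin 2) (Fin 2) R) = !![(1 : R), 0; c, d]) : TT U x := by
  obtain ⟨y, hy⟩ : ∃ y : Matrix (Fin 2) (Fin 2) R, y = ((x⁻¹ : (Matrix (Fin 2) (Fin 2) R)ˣ) :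
    Matrix (Fin 2) (Fin 2) R) := ⟨_, rfl⟩
  have h1 : (x : Matrix (Fin 2) (Fin 2) R) * y = 1 := by rw [hy]; exact x.mul_inv
  have h2 : y * (x : Matrix (Fin 2) (Fin 2) R) = 1 := by rw [hy]; exact x.inv_mul
  rw [hx] at h1 h2
  have e1 := congrFun (congrFun h1 0) 1
  have e2 := congrFun (congrFun h1 1) 1
  have e3 := congrFun (congrFun h2 1) 1
  simp [Matrix.mul_apply, Fin.sum_univ_two] at e1 e2 e3
  rw [e1, mul_zero, zero_add] at e2
  let u : Rˣ := ⟨d, y 1 1, e2, e3⟩
  have h3 : x = tv 1 0 (by decide) c * Units.map (dgm (1 : Fin 2)) u := by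
    apply Units.ext
    rw [Units.val_mul, hx]
    change _ = (1 + Matrix.single 1 0 c) * (dgm (1 : Fin 2) d)
    rw [dgm_apply]
    ext i j
    fin_cases i <;> fin_cases j <;>
      simp [Matrix.mul_apply, Fin.sum_univ_two, Matrix.single_apply, Matrix.one_apply,
        Matrix.diagonal_apply, Function.update]
  rw [h3]
  exact TT_mul U _ _ (TT_tv U _ _ _ _) (TT_of_mem U _ (dgm_mem_HH U _ _ (hU u)))

/-- diagonal matrices of units -/
def dg (u v : Rˣ) : (Matrix (Fin 2) (Fin 2) R)ˣ :=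
  Units.map (dgm (0 : Fin 2)) u * Units.map (dgm (1 : Fin 2)) v

theorem dg_val (u v : Rˣ) : (dg u v : Matrix (Fin 2) (Fin 2) R) = !![(u : R), 0; 0, (v : R)] := by
  unfold dg
  rw [Units.val_mul]
  change (dgm (0 : Fin 2) (u : R)) * (dgm (1 : Fin 2) (v : R)) = _
  rw [dgm_apply, dgm_apply]
  ext i j
  fin_cases i <;> fin_cases j <;>
    simp [Matrix.mul_apply, Fin.sum_univ_two, Matrix.diagonal_apply, Function.update]

theorem TT_dg (hU : ∀ u : Rˣ, u ∈ U) (u v : Rˣ) : TT U (dg u v) :=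
  TT_mul U _ _ (TT_of_mem U _ (dgm_mem_HH U _ _ (hU u))) (TT_of_mem U _ (dgm_mem_HH U _ _ (hU v)))

end ring

end Pool.Agent.X263.Bd
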